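import Pool.Agent.Helper42.PQ.Spec

set_option autoImplicit false
set_option linter.unusedSectionVars false
set_option linter.unusedVariables false

/-!
Part LC of swarm PQ: one exchange of nodes centred at the largest variable.
-/

namespace Pool.Agent.Helper31.PQ.LC

open Finset Pool.Agent.Helper42.PQ
open Pool.Agent.Helper46.PV (sg_insert sg_union sg_mono sg_sdiff sg_erase slide exists_top)

variable {ι : Type} [Fintype ι] [DecidableEq ι] (u : ι → ℕ)

/-- many `r`-subsets of large weight -/
lemma splitGe (E : Finset ι) (r M : ℕ) (hE : ∀ R ⊆ E, R.card = r → M ≤ sg u R) :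
    ∀ (m : ℕ) (X : Finset ι), X ⊆ E → m * r ≤ X.card → m * M ≤ sg u X := by
  intro m
  induction m with
  | zero => intro X _ _; simp
  | succ m ih =>
    intro X hX hc
    have e1 : (m + 1) * r = m * r + r := by ring
    have e2 : (m + 1) * M = m * M + M := by ring
    obtain ⟨R, hR, hRc⟩ := Finset.exists_subset_card_eq (s := X) (n := r) (by omega)
    have h1 := hE R (hR.trans hX) hRc
    have h2 := ih (X \ R) (Finset.sdiff_subset.trans hX)
      (by rw [Finset.card_sdiff_of_subset hR]; omega)
    have h3 := sg_sdiff u hR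
    omega

/-- a set of small elements -/
lemma splitLe (Y R : Finset ι) (r m : ℕ) (hR : R.card = r) (hY : Y.card ≤ m * r)
    (h : ∀ y ∈ Y, ∀ x ∈ R, u y ≤ u x) : sg u Y ≤ m * sg u R := by
  rcases Y.eq_empty_or_nonempty with rfl | hne
  · simp [sg]
  · obtain ⟨y0, hy0, hmax⟩ := Finset.exists_max_image Y u hne
    have h3 : sg u Y ≤ Y.card • u y0 := Finset.sum_le_card_nsmul Y u (u y0) hmax
    have h4 : R.card • u y0 ≤ sg u R :=
      Finset.card_nsmul_le_sum R u (u y0) (fun b hb => h y0 hy0 b hb)
    simp only [smul_eq_mul] at h3 h4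
    rw [hR] at h4
    calc sg u Y ≤ Y.card * u y0 := h3
      _ ≤ (m * r) * u y0 := Nat.mul_le_mul_right _ hY
      _ = m * (r * u y0) := by ring
      _ ≤ m * sg u R := Nat.mul_le_mul_left _ h4

variable {u}
variable {r d : ℕ} {D : Finset ι}

lemma adj {P Q : Finset ι} {x y : ι} (h1 : Nd u r d D (P, x)) (h2 : Nd u r d D (Q, y))
    (h3 : Disjoint P Q) (h4 : x ∉ Q) (h5 : y ∉ P)
    (h6 : x = y → 2 * d ≤ sg u P + sg u Q + u x) : NCn u r d D (P, x) (Q, y) :=
  Relation.EqvGen.rel _ _ ⟨h1, h2, h3, h4, h5, h6⟩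

lemma csymm {p q : Finset ι × ι} (h : NCn u r d D p q) : NCn u r d D q p :=
  Relation.EqvGen.symm _ _ h

lemma ctrans {p q s : Finset ι × ι} (h : NCn u r d D p q) (h' : NCn u r d D q s) :
    NCn u r d D p s := Relation.EqvGen.trans _ _ _ h h'

lemma core (k : ℕ) (o : ι) (hr : 2 ≤ r) (hk : 4 ≤ k) (hD : D.card = k * r + 1)
    (hs : sg u D = k * d) (ho : o ∈ D) (hmax : ∀ i ∈ D, u i ≤ u o)
    (E : Finset ι) (b c : ι) (hE : E.card + 1 = r) (hbE : b ∉ E) (hcE : c ∉ E) (hbc : b ≠ c)
    (hN1 : Nd u r d D (insert b E, o)) (hN2 : Nd u r d D (insert c E, o)) (hle : u c ≤ u b) :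
    NCn u r d D (insert b E, o) (insert c E, o) := by
  obtain ⟨hs1, _, hc1, hoP1, hl1, hu1⟩ := hN1
  obtain ⟨hs2, _, hc2, hoP2, hl2, hu2⟩ := hN2
  dsimp only at hs1 hc1 hoP1 hl1 hu1 hs2 hc2 hoP2 hl2 hu2
  have hN1 : Nd u r d D (insert b E, o) := ⟨hs1, ho, hc1, hoP1, hl1, hu1⟩
  have hN2 : Nd u r d D (insert c E, o) := ⟨hs2, ho, hc2, hoP2, hl2, hu2⟩
  rw [sg_insert u hbE] at hl1 hu1
  rw [sg_insert u hcE] at hl2 hu2
  have hob : o ≠ b := fun h => hoP1 (h ▸ Finset.mem_insert_self _ _)
  have hoc : o ≠ c := fun h => hoP2 (h ▸ Finset.mem_insert_self _ _)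
  have hoE : o ∉ E := fun h => hoP1 (Finset.mem_insert_of_mem h)
  have hbD : b ∈ D := hs1 (Finset.mem_insert_self _ _)
  have hcD : c ∈ D := hs2 (Finset.mem_insert_self _ _)
  have hED : E ⊆ D := fun z hz => hs1 (Finset.mem_insert_of_mem hz)
  set U : Finset ι := insert o (insert b (insert c E)) with hU
  have m2 : b ∉ insert c E := by
    rw [Finset.mem_insert, not_or]; exact ⟨hbc, hbE⟩
  have m3 : o ∉ insert b (insert c E) := by
    rw [Finset.mem_insert, Finset.mem_insert, not_or, not_or]
    exact ⟨hob, hoc, hoE⟩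
  have hUc : U.card = r + 2 := by
    rw [hU, Finset.card_insert_of_notMem m3, Finset.card_insert_of_notMem m2,
      Finset.card_insert_of_notMem hcE]
    omega
  have hUs : sg u U = u o + (u b + (u c + sg u E)) := by
    rw [hU, sg_insert u m3, sg_insert u m2, sg_insert u hcE]
  have hUD : U ⊆ D := by
    rw [hU]
    exact Finset.insert_subset ho (Finset.insert_subset hbD (Finset.insert_subset hcD hED))
  set W : Finset ι := D \ U with hW
  obtain ⟨k', rfl⟩ : ∃ k', k = k' + 4 := ⟨k - 4, by omega⟩
  have hWc : W.card + 1 = (k' + 3) * r := by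
    rw [hW, Finset.card_sdiff_of_subset hUD, hUc, hD]
    have : (k' + 4) * r = (k' + 3) * r + r := by ring
    have : 2 ≤ (k' + 3) * r := by nlinarith
    omega
  have hWs : sg u W + (u o + (u b + (u c + sg u E))) = (k' + 4) * d := by
    rw [← hUs, ← hs]; exact sg_sdiff u hUD
  have hWmem : ∀ z ∈ W, z ≠ o ∧ z ≠ b ∧ z ≠ c ∧ z ∉ E := by
    intro z hz
    rw [hW, Finset.mem_sdiff, hU, Finset.mem_insert, Finset.mem_insert, Finset.mem_insert,
      not_or, not_or, not_or] at hz
    exact hz.2
  have hWD : W ⊆ D := Finset.sdiff_subset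
  have e4 : (k' + 4) * d = k' * d + 4 * d := by ring
  have e3 : (k' + 3) * r = k' * r + 3 * r := by ring
  by_cases hS : ∃ S ⊆ W, S.card = r + 1 ∧ d ≤ sg u S
  · by_cases hR : ∃ R ⊆ W, R.card = r ∧ sg u R ≤ d
    · obtain ⟨R, hRW, y, hyW, hyR, hRc, hRd, hRy⟩ := slide u W r d hS hR
      obtain ⟨hyo, hyb, hyc, hyE⟩ := hWmem y hyW
      have hN : Nd u r d D (R, y) := ⟨hRW.trans hWD, hWD hyW, hRc, hyR, hRd, hRy⟩
      have hoR : o ∉ R := fun h => (hWmem o (hRW h)).1 rfl
      refine ctrans (q := (R, y)) ?_ (csymm ?_)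
      · refine adj hN1 hN ?_ hoR ?_ (fun h => absurd h (Ne.symm hyo))
        · rw [Finset.disjoint_left]
          intro z hz hzR
          obtain ⟨g1, g2, g3, g4⟩ := hWmem z (hRW hzR)
          rcases Finset.mem_insert.mp hz with h | h
          · exact g2 h
          · exact g4 h
        · rw [Finset.mem_insert, not_or]; exact ⟨hyb, hyE⟩
      · refine adj hN2 hN ?_ hoR ?_ (fun h => absurd h (Ne.symm hyo))
        · rw [Finset.disjoint_left]
          intro z hz hzR
          obtain ⟨g1, g2, g3, g4⟩ := hWmem z (hRW hzR)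
          rcases Finset.mem_insert.mp hz with h | h
          · exact g3 h
          · exact g4 h
        · rw [Finset.mem_insert, not_or]; exact ⟨hyc, hyE⟩
    · -- heavy
      push Not at hR
      have hR' : ∀ R ⊆ W, R.card = r → d + 1 ≤ sg u R := fun R h1 h2 => hR R h1 h2
      obtain ⟨A1, hA1, hA1c⟩ := Finset.exists_subset_card_eq (s := W) (n := r - 1) (by omega)
      have hE'c : (W \ A1).card = (k' + 2) * r := by
        rw [Finset.card_sdiff_of_subset hA1, hA1c]
        have : (k' + 2) * r = k' * r + 2 * r := by ring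
        omega
      have e2 : (k' + 2) * r = k' * r + 2 * r := by ring
      obtain ⟨A2, hA2, hA2c⟩ := Finset.exists_subset_card_eq (s := W \ A1) (n := r - 1) (by omega)
      have hXc : ((W \ A1) \ A2).card = (k' + 1) * r + 1 := by
        rw [Finset.card_sdiff_of_subset hA2, hA2c, hE'c]
        have : (k' + 1) * r = k' * r + r := by ring
        omega
      have e1 : (k' + 1) * r = k' * r + r := by ring
      have hA2W : A2 ⊆ W := hA2.trans Finset.sdiff_subset
      have hXW : (W \ A1) \ A2 ⊆ W := Finset.sdiff_subset.trans Finset.sdiff_subset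
      have s1 := sg_sdiff u hA1
      have s2 := sg_sdiff u hA2
      -- two elements
      obtain ⟨z1, hz1⟩ : ((W \ A1) \ A2).Nonempty := Finset.card_pos.mp (by omega)
      obtain ⟨z2, hz2⟩ : (((W \ A1) \ A2).erase z1).Nonempty := Finset.card_pos.mp (by
        rw [Finset.card_erase_of_mem hz1]; omega)
      have hz21 : z2 ≠ z1 := (Finset.mem_erase.mp hz2).1
      have hz2' : z2 ∈ (W \ A1) \ A2 := (Finset.mem_erase.mp hz2).2
      have hz1A2 : z1 ∉ A2 := (Finset.mem_sdiff.mp hz1).2
      have hz1A1 : z1 ∉ A1 := (Finset.mem_sdiff.mp (Finset.mem_sdiff.mp hz1).1).2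
      have hz2A2 : z2 ∉ A2 := (Finset.mem_sdiff.mp hz2').2
      have hz2A1 : z2 ∉ A1 := (Finset.mem_sdiff.mp (Finset.mem_sdiff.mp hz2').1).2
      have hz1W : z1 ∈ W := hXW hz1
      have hz2W : z2 ∈ W := hXW hz2'
      have g1 : ∀ z ∈ W, z ∉ A1 → d + 1 ≤ u z + sg u A1 := by
        intro z hz hzA
        have := hR' (insert z A1) (Finset.insert_subset hz hA1)
          (by rw [Finset.card_insert_of_notMem hzA, hA1c]; omega)
        rwa [sg_insert u hzA] at this
      have g2 : ∀ z ∈ W, z ∉ A2 → d + 1 ≤ u z + sg u A2 := by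
        intro z hz hzA
        have := hR' (insert z A2) (Finset.insert_subset hz hA2W)
          (by rw [Finset.card_insert_of_notMem hzA, hA2c]; omega)
        rwa [sg_insert u hzA] at this
      have f1 := splitGe u W r (d + 1) hR' (k' + 2) (W \ A1) Finset.sdiff_subset (le_of_eq hE'c.symm)
      have f1' : (k' + 2) * (d + 1) = k' * d + k' + 2 * d + 2 := by ring
      have hXe : (((W \ A1) \ A2).erase z1).card = (k' + 1) * r := by
        rw [Finset.card_erase_of_mem hz1]; omega
      have f2 := splitGe u W r (d + 1) hR' (k' + 1) (((W \ A1) \ A2).erase z1)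
        ((Finset.erase_subset _ _).trans hXW) (le_of_eq hXe.symm)
      have f2' : (k' + 1) * (d + 1) = k' * d + k' + d + 1 := by ring
      have f3 := sg_erase u hz1
      have g1z := g1 z1 hz1W hz1A1
      have hb1 : sg u A1 + u b ≤ d := by
        by_contra hcon
        omega
      have hb2 : sg u A2 + u c ≤ d := by
        by_contra hcon
        omega
      have g1z2 := g1 z2 hz2W hz2A1
      have g2z2 := g2 z2 hz2W hz2A2
      have hbA1 : b ∉ A1 := fun h => (hWmem b (hA1 h)).2.1 rfl
      have hcA2 : c ∉ A2 := fun h => (hWmem c (hA2W h)).2.2.1 rfl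
      have hbA2 : b ∉ A2 := fun h => (hWmem b (hA2W h)).2.1 rfl
      have hcA1 : c ∉ A1 := fun h => (hWmem c (hA1 h)).2.2.1 rfl
      have hoA1 : o ∉ A1 := fun h => (hWmem o (hA1 h)).1 rfl
      have hoA2 : o ∉ A2 := fun h => (hWmem o (hA2W h)).1 rfl
      obtain ⟨z1o, z1b, z1c, z1E⟩ := hWmem z1 hz1W
      obtain ⟨z2o, z2b, z2c, z2E⟩ := hWmem z2 hz2W
      have NA : Nd u r d D (insert b A1, z1) := by
        refine ⟨Finset.insert_subset hbD (hA1.trans hWD), hWD hz1W, ?_, ?_, ?_, ?_⟩
        · dsimp only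
          rw [Finset.card_insert_of_notMem hbA1, hA1c]; omega
        · dsimp only
          rw [Finset.mem_insert, not_or]; exact ⟨z1b, hz1A1⟩
        · dsimp only
          rw [sg_insert u hbA1]; omega
        · dsimp only
          rw [sg_insert u hbA1]; omega
      have NB : Nd u r d D (insert c A2, z2) := by
        refine ⟨Finset.insert_subset hcD (hA2W.trans hWD), hWD hz2W, ?_, ?_, ?_, ?_⟩
        · dsimp only
          rw [Finset.card_insert_of_notMem hcA2, hA2c]; omega
        · dsimp only
          rw [Finset.mem_insert, not_or]; exact ⟨z2c, hz2A2⟩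
        · dsimp only
          rw [sg_insert u hcA2]; omega
        · dsimp only
          rw [sg_insert u hcA2]; omega
      refine ctrans (q := (insert c A2, z2)) ?_ (ctrans (q := (insert b A1, z1)) ?_ ?_)
      · refine adj hN1 NB ?_ ?_ ?_ (fun h => absurd h (Ne.symm z2o))
        · rw [Finset.disjoint_left]
          intro z hz hz'
          rcases Finset.mem_insert.mp hz with h | h
          · subst h
            rcases Finset.mem_insert.mp hz' with h' | h'
            · exact hbc h'
            · exact hbA2 h'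
          · rcases Finset.mem_insert.mp hz' with h' | h'
            · exact hcE (h' ▸ h)
            · exact (hWmem z (hA2W h')).2.2.2 h
        · rw [Finset.mem_insert, not_or]; exact ⟨hoc, hoA2⟩
        · rw [Finset.mem_insert, not_or]; exact ⟨z2b, z2E⟩
      · refine adj NB NA ?_ ?_ ?_ (fun h => absurd h hz21)
        · rw [Finset.disjoint_left]
          intro z hz hz'
          rcases Finset.mem_insert.mp hz with h | h
          · subst h
            rcases Finset.mem_insert.mp hz' with h' | h'
            · exact hbc h'.symm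
            · exact hcA1 h'
          · rcases Finset.mem_insert.mp hz' with h' | h'
            · exact hbA2 (h' ▸ h)
            · exact (Finset.mem_sdiff.mp (hA2 h)).2 h'
        · rw [Finset.mem_insert, not_or]; exact ⟨z2b, hz2A1⟩
        · rw [Finset.mem_insert, not_or]; exact ⟨z1c, hz1A2⟩
      · refine adj NA hN2 ?_ ?_ ?_ (fun h => absurd h z1o)
        · rw [Finset.disjoint_left]
          intro z hz hz'
          rcases Finset.mem_insert.mp hz with h | h
          · subst h
            rcases Finset.mem_insert.mp hz' with h' | h'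
            · exact hbc h'
            · exact hbE h'
          · rcases Finset.mem_insert.mp hz' with h' | h'
            · exact hcA1 (h' ▸ h)
            · exact (hWmem z (hA1 h)).2.2.2 h'
        · rw [Finset.mem_insert, not_or]; exact ⟨z1c, z1E⟩
        · rw [Finset.mem_insert, not_or]; exact ⟨hob, hoA1⟩
  · -- light
    push Not at hS
    obtain ⟨R1, hR1W, hR1c, hR1t⟩ := exists_top u W r (by omega)
    have hFc : (W \ R1).card + 1 = (k' + 2) * r := by
      rw [Finset.card_sdiff_of_subset hR1W, hR1c]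
      have : (k' + 2) * r = k' * r + 2 * r := by ring
      omega
    have e2 : (k' + 2) * r = k' * r + 2 * r := by ring
    obtain ⟨R2, hR2F, hR2c, hR2t⟩ := exists_top u (W \ R1) r (by omega)
    have hR2W : R2 ⊆ W := hR2F.trans Finset.sdiff_subset
    have sF := sg_sdiff u hR1W
    have sF2 := sg_sdiff u hR2F
    have hR12 : Disjoint R1 R2 := by
      rw [Finset.disjoint_left]
      intro z hz hz'
      exact (Finset.mem_sdiff.mp (hR2F hz')).2 hz
    have hle12 : sg u R2 ≤ sg u R1 := by
      have := splitLe u R2 R1 r 1 hR1c (by omega) (fun y hy x hx => hR1t x hx y (hR2F hy))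
      omega
    have hR1d : sg u R1 < d := by
      obtain ⟨x0, hx0⟩ : (W \ R1).Nonempty := Finset.card_pos.mp (by omega)
      have hx0' := Finset.mem_sdiff.mp hx0
      have h1 := hS (insert x0 R1) (Finset.insert_subset hx0'.1 hR1W)
        (by rw [Finset.card_insert_of_notMem hx0'.2, hR1c])
      rw [sg_insert u hx0'.2] at h1
      omega
    have hbR1 : b ∉ R1 := fun h => (hWmem b (hR1W h)).2.1 rfl
    have hbR2 : b ∉ R2 := fun h => (hWmem b (hR2W h)).2.1 rfl
    have hcR1 : c ∉ R1 := fun h => (hWmem c (hR1W h)).2.2.1 rfl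
    have hcR2 : c ∉ R2 := fun h => (hWmem c (hR2W h)).2.2.1 rfl
    have hoR1 : o ∉ R1 := fun h => (hWmem o (hR1W h)).1 rfl
    have hoR2 : o ∉ R2 := fun h => (hWmem o (hR2W h)).1 rfl
    have e2d : (k' + 2) * d = k' * d + 2 * d := by ring
    -- disjointness
    have dis : ∀ a : ι, ∀ R ⊆ W, a ∉ R → Disjoint (insert a E) R := by
      intro a R hRW haR
      rw [Finset.disjoint_left]
      intro z hz hzR
      rcases Finset.mem_insert.mp hz with h | h
      · exact haR (h ▸ hzR)
      · exact (hWmem z (hRW hzR)).2.2.2 h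
    have hmb := hmax b hbD
    have hmc := hmax c hcD
    -- the sum over `F`
    have hsF : sg u (W \ R1) ≤ (k' + 2) * sg u R2 := by
      have h1 := splitLe u ((W \ R1) \ R2) R2 r (k' + 1) hR2c (by
        rw [Finset.card_sdiff_of_subset hR2F, hR2c]
        have : (k' + 1) * r = k' * r + r := by ring
        omega) (fun y hy x hx => hR2t x hx y hy)
      have h2 : (k' + 2) * sg u R2 = (k' + 1) * sg u R2 + sg u R2 := by ring
      omega
    have key : ∀ a : ι, (k' + 2) * d < u a + sg u (W \ R1) → d ≤ sg u R2 + u a := by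
      intro a ha
      by_contra hcon
      push Not at hcon
      have h1 : (k' + 2) * (sg u R2 + u a) ≤ (k' + 2) * (d - 1) :=
        Nat.mul_le_mul_left _ (by omega)
      have h2 : (k' + 2) * (sg u R2 + u a) = (k' + 2) * sg u R2 + k' * u a + 2 * u a := by ring
      have h3 : (k' + 2) * (d - 1) ≤ (k' + 2) * d := Nat.mul_le_mul_left _ (by omega)
      omega
    by_cases T2 : u b + sg u (W \ R1) ≤ (k' + 2) * d
    · have hNo : Nd u r d D (R1, o) := ⟨hR1W.trans hWD, ho, hR1c, hoR1, by
        dsimp only; omega, by dsimp only; omega⟩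
      refine ctrans (q := (R1, o)) ?_ (csymm ?_)
      · refine adj hN1 hNo (dis b R1 hR1W hbR1) hoR1 hoP1 (fun _ => ?_)
        rw [sg_insert u hbE]; omega
      · refine adj hN2 hNo (dis c R1 hR1W hcR1) hoR1 hoP2 (fun _ => ?_)
        rw [sg_insert u hcE]; omega
    · push Not at T2
      have kb := key b T2
      have hR2b : Nd u r d D (R2, b) := ⟨hR2W.trans hWD, hbD, hR2c, hbR2, by
        dsimp only; omega, by dsimp only; omega⟩
      have hR1b : Nd u r d D (R1, b) := ⟨hR1W.trans hWD, hbD, hR1c, hbR1, by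
        dsimp only; omega, by dsimp only; omega⟩
      have hR1o : Nd u r d D (R1, o) := ⟨hR1W.trans hWD, ho, hR1c, hoR1, by
        dsimp only; omega, by dsimp only; omega⟩
      have hbcE : b ∉ insert c E := m2
      have hcbE : c ∉ insert b E := by
        rw [Finset.mem_insert, not_or]; exact ⟨hbc.symm, hcE⟩
      by_cases T1 : u c + sg u (W \ R1) ≤ (k' + 2) * d
      · refine csymm (ctrans (q := (R2, b)) ?_ (ctrans (q := (R1, o)) ?_ ?_))
        · exact adj hN2 hR2b (dis c R2 hR2W hcR2) hoR2 hbcE (fun h => absurd h hob)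
        · exact adj hR2b hR1o hR12.symm hbR1 hoR2 (fun h => absurd h hob.symm)
        · refine adj hR1o hN1 (dis b R1 hR1W hbR1).symm hoP1 hoR1 (fun _ => ?_)
          rw [sg_insert u hbE]; omega
      · push Not at T1
        have kc := key c T1
        have hR2c' : Nd u r d D (R2, c) := ⟨hR2W.trans hWD, hcD, hR2c, hcR2, by
          dsimp only; omega, by dsimp only; omega⟩
        refine ctrans (q := (R2, c)) ?_ (ctrans (q := (R1, b)) ?_ ?_)
        · exact adj hN1 hR2c' (dis b R2 hR2W hbR2) hoR2 hcbE (fun h => absurd h hoc)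
        · exact adj hR2c' hR1b hR12.symm hcR1 hbR2 (fun h => absurd h hbc.symm)
        · exact adj hR1b hN2 (dis c R1 hR1W hcR1).symm hbcE hoR1 (fun h => absurd h hob.symm)

theorem main : S_LC := by
  intro ι _ _ u r d k D o hr hk hD hs ho hmax E b c hE hbE hcE hbc h1 h2
  rcases le_total (u c) (u b) with h | h
  · exact core k o hr hk hD hs ho hmax E b c hE hbE hcE hbc h1 h2 h
  · exact csymm (core k o hr hk hD hs ho hmax E c b hE hcE hbE hbc.symm h2 h1 h)

end Pool.Agent.Helper31.PQ.LC
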