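import Pool.Agent.Helper42.PQ.Spec
import Pool.Agent.Helper42.PQ.Base

set_option autoImplicit false
set_option linter.unusedSectionVars false
set_option linter.unusedVariables false

/-!
Part LL of swarm PQ: connectedness of the fibres inside a set of `k r + 1` variables.
-/

namespace Pool.Agent.Helper31.PQ.LL

open Finset Pool.Agent.Helper42.PQ

section
variable {ι : Type} [Fintype ι] [DecidableEq ι] {d r : ℕ}

/-- every node is in some configuration -/
lemma exC (fd : S_FD) (k0 : ℕ) (D : Finset ι) (w : ι → ℕ) (hr : 1 ≤ r) (hk : 1 ≤ k0)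
    (hD : D.card = (k0 + 1) * r + 1) (hw : ∀ i, i ∉ D → w i = 0)
    (hs : ∑ i, w i = (k0 + 1) * d) (p : Finset ι × ι) (hp : Nd w r d D p) :
    ∃ S : Multiset (G ι d (r + 1)), S.card = k0 + 1 ∧ Wt S = w ∧ ∃ m ∈ S, m.1 = bvec w d p := by
  obtain ⟨g, hg⟩ := bvec_gen hp.2.2
  obtain ⟨S, hSc, hSw⟩ := fd ι d r k0 (D \ p.1) (w - bvec w d p) hr hk
    (card_sdiff_node hp hD) (sub_bvec_off hw) (sum_sub_bvec hp.2.2 hs)
  refine ⟨g ::ₘ S, by rw [Multiset.card_cons, hSc], ?_, g, Multiset.mem_cons_self _ _, hg⟩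
  rw [Wt_cons, hSw, hg]
  funext i
  have := bvec_le hp.2.2 i
  show bvec w d p i + (w i - bvec w d p i) = w i
  omega

/-- adjacent nodes are in a common configuration -/
lemma exC2 (fd : S_FD) (k0 : ℕ) (D : Finset ι) (w : ι → ℕ) (hr : 1 ≤ r) (hk : 1 ≤ k0)
    (hD : D.card = (k0 + 2) * r + 1) (hw : ∀ i, i ∉ D → w i = 0)
    (hs : ∑ i, w i = (k0 + 2) * d) (p q : Finset ι × ι) (hpq : NAd w r d D p q) :
    ∃ S : Multiset (G ι d (r + 1)), S.card = k0 + 2 ∧ Wt S = w ∧
      (∃ m ∈ S, m.1 = bvec w d p) ∧ (∃ m ∈ S, m.1 = bvec w d q) := by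
  obtain ⟨hp, hq, hdis, h1, h2, h3⟩ := hpq
  obtain ⟨g, hg⟩ := bvec_gen hp.2.2
  obtain ⟨g', hg'⟩ := bvec_gen hq.2.2
  have hle : ∀ i, bvec w d p i + bvec w d q i ≤ w i := by
    intro i
    have e1 := bvec_le hp.2.2 i
    have e2 := bvec_le hq.2.2 i
    by_cases hiP : i ∈ p.1
    · have : bvec w d q i = 0 :=
        bvec_out (Finset.disjoint_left.mp hdis hiP) (fun h => h2 (h ▸ hiP))
      omega
    by_cases hiQ : i ∈ q.1
    · have : bvec w d p i = 0 :=
        bvec_out hiP (fun h => h1 (h ▸ hiQ))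
      omega
    by_cases hip : i = p.2
    · by_cases hiq : i = q.2
      · have h4 := h3 (hip.symm.trans hiq)
        have e3 : bvec w d p i = d - sg w p.1 := by
          rw [hip]; exact bvec_x hp.2.2.2.1
        have e4 : bvec w d q i = d - sg w q.1 := by
          rw [hiq]; exact bvec_x hq.2.2.2.1
        have e5 := hp.2.2.2.2.1
        have e6 := hq.2.2.2.2.1
        rw [← hip] at h4
        omega
      · have : bvec w d q i = 0 := bvec_out hiQ hiq
        omega
    · have : bvec w d p i = 0 := bvec_out hiP hip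
      omega
  have hs1 : ∑ i, (w - bvec w d p) i = (k0 + 1) * d := sum_sub_bvec hp.2.2 hs
  have hs2 : ∑ i, (w - bvec w d p - bvec w d q) i = k0 * d := by
    have e := sum_sub_of_le (w - bvec w d p) (bvec w d q) (fun i => by
      have := hle i
      show bvec w d q i ≤ w i - bvec w d p i
      omega)
    rw [bvec_sum hq.2.2, hs1] at e
    have : (k0 + 1) * d = k0 * d + d := by ring
    omega
  have hD2 : (D \ (p.1 ∪ q.1)).card = k0 * r + 1 := by
    rw [Finset.card_sdiff_of_subset (Finset.union_subset hp.1 hq.1),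
      Finset.card_union_of_disjoint hdis, hp.2.2.1, hq.2.2.1, hD]
    have : (k0 + 2) * r = k0 * r + 2 * r := by ring
    omega
  obtain ⟨S, hSc, hSw⟩ := fd ι d r k0 (D \ (p.1 ∪ q.1)) (w - bvec w d p - bvec w d q) hr hk hD2
    (by
      intro i hi
      show w i - bvec w d p i - bvec w d q i = 0
      rw [Finset.mem_sdiff, Finset.mem_union, not_and_or, not_not] at hi
      rcases hi with hi | hi | hi
      · rw [hw i hi]; omega
      · rw [bvec_mem hi]; omega
      · rw [bvec_mem hi]; omega) hs2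
  refine ⟨g ::ₘ g' ::ₘ S, by rw [Multiset.card_cons, Multiset.card_cons, hSc], ?_,
    ⟨g, by simp, hg⟩, ⟨g', by simp, hg'⟩⟩
  rw [Wt_cons, Wt_cons, hSw, hg, hg']
  funext i
  have := hle i
  show bvec w d p i + (bvec w d q i + (w i - bvec w d p i - bvec w d q i)) = w i
  omega

/-- configurations with a common node -/
lemma com (k0 : ℕ) (D : Finset ι) (w : ι → ℕ)
    (hD : D.card = (k0 + 1) * r + 1) (hw : ∀ i, i ∉ D → w i = 0)
    (hs : ∑ i, w i = (k0 + 1) * d)
    (ih : ∀ (D : Finset ι) (w : ι → ℕ), D.card = k0 * r + 1 → (∀ i, i ∉ D → w i = 0) →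
      ∑ i, w i = k0 * d → Conn ι d (r + 1) k0 w)
    (p : Finset ι × ι) (hp : Nd w r d D p) (S T : Multiset (G ι d (r + 1)))
    (hS : S.card = k0 + 1) (hT : T.card = k0 + 1) (hSw : Wt S = w) (hTw : Wt T = w)
    (hSp : ∃ m ∈ S, m.1 = bvec w d p) (hTp : ∃ m ∈ T, m.1 = bvec w d p) : Cn S T := by
  obtain ⟨m, hm, hmp⟩ := hSp
  obtain ⟨m', hm', hmp'⟩ := hTp
  have e : m' = m := Subtype.ext (hmp'.trans hmp.symm)
  rw [e] at hm'
  apply Cn.of_common hm hm' hS hT hSw hTw
  rw [hmp]
  exact ih (D \ p.1) _ (card_sdiff_node hp hD) (sub_bvec_off hw) (sum_sub_bvec hp.2.2 hs)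

end

theorem main (ln : S_LN) (fd : S_FD) (cnt : S_CNT) (spl : S_SPL) : S_LL := by
  intro ι _ _ d r k
  induction k with
  | zero => intro D w _ _ _ _ _; exact Conn_le_two (by omega) w
  | succ k0 ih =>
    intro D w hr hd hD hw hs
    by_cases hk0 : k0 + 1 ≤ 2
    · exact Conn_le_two hk0 w
    have ih' : ∀ (D : Finset ι) (w : ι → ℕ), D.card = k0 * r + 1 → (∀ i, i ∉ D → w i = 0) →
      ∑ i, w i = k0 * d → Conn ι d (r + 1) k0 w := fun D w h1 h2 h3 => ih D w hr hd h1 h2 h3
    -- inner induction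
    suffices h : ∀ (z : ℕ) (w : ι → ℕ), (∀ i, i ∉ D → w i = 0) → ∑ i, w i = (k0 + 1) * d →
        (k0 + 1) * r + 1 ≤ (sp w).card + z → Conn ι d (r + 1) (k0 + 1) w from
      h ((k0 + 1) * r + 1) w hw hs (by omega)
    intro z
    induction z with
    | zero =>
      intro w hw hs hz
      intro S T hS hT hSw hTw
      obtain ⟨p, m, S', hm, hmp, hp, hSS⟩ := cnt ι d r (k0 + 1) D w S hr (by omega) hD hw
        (by omega) hS hSw
      obtain ⟨q, m', T', hm', hmq, hq, hTT⟩ := cnt ι d r (k0 + 1) D w T hr (by omega) hD hw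
        (by omega) hT hTw
      have hsD : sg w D = (k0 + 1) * d := by
        rw [← hs]
        exact Finset.sum_subset (Finset.subset_univ _) (fun i _ hi => hw i hi)
      have hpq : NCn w r d D p q := ln ι w r d (k0 + 1) D hr (by omega) hD hsD p q hp hq
      have hex : ∀ p : Finset ι × ι, ∃ S : Multiset (G ι d (r + 1)), Nd w r d D p →
          S.card = k0 + 1 ∧ Wt S = w ∧ ∃ m ∈ S, m.1 = bvec w d p := by
        intro p
        by_cases hp : Nd w r d D p
        · obtain ⟨S, h⟩ := exC fd k0 D w (by omega) (by omega) hD hw hs p hp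
          exact ⟨S, fun _ => h⟩
        · exact ⟨0, fun h => absurd h hp⟩
      choose C hC using hex
      have key : ∀ p q : Finset ι × ι, NCn w r d D p q → Cn (C p) (C q) := by
        intro p q h
        unfold NCn at h
        induction h with
        | rel x y h =>
          obtain ⟨k1, rfl⟩ : ∃ k1, k0 = k1 + 1 := ⟨k0 - 1, by omega⟩
          obtain ⟨X, hX1, hX2, hX3, hX4⟩ := exC2 fd k1 D w (by omega) (by omega) hD hw hs x y h
          obtain ⟨a1, a2, a3⟩ := hC x h.1
          obtain ⟨b1, b2, b3⟩ := hC y h.2.1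
          exact (com _ D w hD hw hs ih' x h.1 _ _ a1 hX1 a2 hX2 a3 hX3).trans
            (com _ D w hD hw hs ih' y h.2.1 _ _ hX1 b1 hX2 b2 hX4 b3)
        | refl x => exact Cn.refl _
        | symm x y _ ih => exact ih.symm
        | trans x y z _ _ ih1 ih2 => exact ih1.trans ih2
      obtain ⟨a1, a2, a3⟩ := hC p hp
      obtain ⟨b1, b2, b3⟩ := hC q hq
      have e1 := hSS.card_eq
      have e2 := hSS.Wt_eq
      have e3 := hTT.card_eq
      have e4 := hTT.Wt_eq
      refine hSS.trans (Cn.trans ?_ ((key p q hpq).trans (Cn.trans ?_ hTT.symm)))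
      · exact com k0 D w hD hw hs ih' p hp _ _ (by omega) a1 (by rw [← e2]; exact hSw) a2
          ⟨m, hm, hmp⟩ a3
      · exact com k0 D w hD hw hs ih' q hq _ _ b1 (by omega) b2 (by rw [← e4]; exact hTw)
          b3 ⟨m', hm', hmq⟩
    | succ z ihz =>
      intro w hw hs hz
      by_cases hz2 : (sp w).card + 2 ≤ (k0 + 1) * r + 1
      · apply spl ι d r (k0 + 1) D w hr (by omega) hd hD hw hs hz2
        intro w' hw' hs' hc'
        exact ihz w' hw' hs' (by omega)
      · intro S T hS hT hSw hTw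
        obtain ⟨p, m, S', hm, hmp, hp, hSS⟩ := cnt ι d r (k0 + 1) D w S hr (by omega) hD hw
          (by omega) hS hSw
        obtain ⟨q, m', T', hm', hmq, hq, hTT⟩ := cnt ι d r (k0 + 1) D w T hr (by omega) hD hw
          (by omega) hT hTw
        have hsD : sg w D = (k0 + 1) * d := by
          rw [← hs]
          exact Finset.sum_subset (Finset.subset_univ _) (fun i _ hi => hw i hi)
        have hpq : NCn w r d D p q := ln ι w r d (k0 + 1) D hr (by omega) hD hsD p q hp hq
        have hex : ∀ p : Finset ι × ι, ∃ S : Multiset (G ι d (r + 1)), Nd w r d D p →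
            S.card = k0 + 1 ∧ Wt S = w ∧ ∃ m ∈ S, m.1 = bvec w d p := by
          intro p
          by_cases hp : Nd w r d D p
          · obtain ⟨S, h⟩ := exC fd k0 D w (by omega) (by omega) hD hw hs p hp
            exact ⟨S, fun _ => h⟩
          · exact ⟨0, fun h => absurd h hp⟩
        choose C hC using hex
        have key : ∀ p q : Finset ι × ι, NCn w r d D p q → Cn (C p) (C q) := by
          intro p q h
          unfold NCn at h
          induction h with
          | rel x y h =>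
            obtain ⟨k1, rfl⟩ : ∃ k1, k0 = k1 + 1 := ⟨k0 - 1, by omega⟩
            obtain ⟨X, hX1, hX2, hX3, hX4⟩ := exC2 fd k1 D w (by omega) (by omega) hD hw hs x y h
            obtain ⟨a1, a2, a3⟩ := hC x h.1
            obtain ⟨b1, b2, b3⟩ := hC y h.2.1
            exact (com _ D w hD hw hs ih' x h.1 _ _ a1 hX1 a2 hX2 a3 hX3).trans
              (com _ D w hD hw hs ih' y h.2.1 _ _ hX1 b1 hX2 b2 hX4 b3)
          | refl x => exact Cn.refl _
          | symm x y _ ih => exact ih.symm
          | trans x y z _ _ ih1 ih2 => exact ih1.trans ih2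
        obtain ⟨a1, a2, a3⟩ := hC p hp
        obtain ⟨b1, b2, b3⟩ := hC q hq
        have e1 := hSS.card_eq
        have e2 := hSS.Wt_eq
        have e3 := hTT.card_eq
        have e4 := hTT.Wt_eq
        refine hSS.trans (Cn.trans ?_ ((key p q hpq).trans (Cn.trans ?_ hTT.symm)))
        · exact com k0 D w hD hw hs ih' p hp _ _ (by omega) a1 (by rw [← e2]; exact hSw) a2
            ⟨m, hm, hmp⟩ a3
        · exact com k0 D w hD hw hs ih' q hq _ _ b1 (by omega) b2 (by rw [← e4]; exact hTw)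
            b3 ⟨m', hm', hmq⟩

end Pool.Agent.Helper31.PQ.LL
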