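import Pool.Agent.Helper42.PQ.Spec
import Pool.Agent.Helper42.PQ.Base

set_option autoImplicit false
set_option linter.unusedSectionVars false
set_option linter.unusedVariables false

/-!
Part ROW of swarm PQ: a basic node in one of two complementary parts of a class.
-/

namespace Pool.Agent.Helper31.PQ.ROW

open Finset Pool.Agent.Helper42.PQ
open Pool.Agent.Helper46.PV (sg_insert sg_union sg_mono sg_sdiff sg_erase slide exists_top)

section
variable {ι : Type} [Fintype ι] [DecidableEq ι] (w : ι → ℕ)

/-- the average over all `r`-subsets -/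
lemma heavy (X : Finset ι) (r M : ℕ) (hr : r ≤ X.card)
    (h : ∀ R ⊆ X, R.card = r → M ≤ sg w R) : X.card * M ≤ r * sg w X := by
  obtain ⟨T, hTX, hTc, hT⟩ := exists_top w X (X.card - r) (by omega)
  have hBc : (X \ T).card = r := by
    rw [Finset.card_sdiff_of_subset hTX, hTc]; omega
  have hB := h (X \ T) Finset.sdiff_subset hBc
  have hs := sg_sdiff w hTX
  have h1 : ∀ g ∈ T, M ≤ r * w g := by
    intro g hg
    have h2 : sg w (X \ T) ≤ (X \ T).card • w g :=
      Finset.sum_le_card_nsmul _ w (w g) (fun x hx => hT g hg x hx)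
    rw [hBc, smul_eq_mul] at h2
    omega
  have h2 : T.card * M ≤ r * sg w T := by
    have h3 : T.card • M ≤ ∑ g ∈ T, r * w g := Finset.card_nsmul_le_sum T _ M h1
    rw [← Finset.mul_sum, smul_eq_mul] at h3
    exact h3
  have h3 : r * M ≤ r * sg w (X \ T) := Nat.mul_le_mul_left _ hB
  have h4 : X.card * M = T.card * M + r * M := by
    rw [← add_mul, hTc]; congr 1; omega
  have h5 : r * sg w X = r * sg w (X \ T) + r * sg w T := by
    rw [← hs]; ring
  omega

lemma two_mul_card_le (Y : Finset ι) (h : ∀ i ∈ Y, 2 ≤ w i) : Y.card * 2 ≤ sg w Y := by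
  have := Finset.card_nsmul_le_sum Y w 2 h
  rwa [smul_eq_mul] at this

end

theorem main : S_ROW := by
  intro ι _ _ w X Y r d t hr hd1 hd2 ht hXY hX1 hY2 hc hs hN
  obtain ⟨N, rfl⟩ : ∃ N, d = r + N := ⟨d - r, by omega⟩
  have eN : r + N - r = N := by omega
  rw [eN] at hN
  have hY := two_mul_card_le w Y hY2
  -- a node in `Y`
  have nodeY : r + 1 ≤ Y.card → (∃ R ⊆ Y, R.card = r ∧ sg w R ≤ r + N) →
      ∃ P x, P ⊆ Y ∧ x ∈ Y ∧ Bn w r (r + N) P x := by
    intro h1 h2
    obtain ⟨S, hS, hSc⟩ := Finset.exists_subset_card_eq (s := Y) (n := r + 1) h1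
    have h3 := two_mul_card_le w S (fun i hi => hY2 i (hS hi))
    rw [hSc] at h3
    obtain ⟨R, hR, y, hy, hyR, hRc, hR1, hR2⟩ := slide w Y r (r + N) ⟨S, hS, hSc, by omega⟩ h2
    exact ⟨R, y, hR, hy, hRc, hyR, hR1, hR2⟩
  by_cases hXr : X.card ≤ r
  · -- (a)
    right
    have ht2 : 2 ≤ t := by
      by_contra hcon
      have : t = 1 := by omega
      subst this
      omega
    have e1 : t * r = (t - 2) * r + 2 * r := by
      rw [← add_mul]; congr 1; omega
    apply nodeY (by omega)
    by_contra hcon
    push Not at hcon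
    have h1 := heavy w Y r (r + N + 1) (by omega) (fun R h1 h2 => hcon R h1 h2)
    have h2 : Y.card = t * r + 1 - X.card := by omega
    have h3 : sg w Y ≤ t * (r + N) - X.card - N := by omega
    have h4 : r * sg w Y + r * X.card + r * N ≤ r * (t * (r + N)) := by
      have : sg w Y + X.card + N ≤ t * (r + N) := by omega
      calc r * sg w Y + r * X.card + r * N = r * (sg w Y + X.card + N) := by ring
        _ ≤ _ := Nat.mul_le_mul_left _ this
    have h5 : Y.card * (r + N + 1) + X.card * (r + N + 1) = (t * r + 1) * (r + N + 1) := by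
      rw [← add_mul]; congr 1; omega
    have h6 : X.card * (N + 1) ≤ r * (N + 1) := Nat.mul_le_mul_right _ hXr
    nlinarith
  · push Not at hXr
    by_cases hnh : ∃ R ⊆ X, R.card = r ∧ sg w R ≤ r + N
    · -- (b)
      left
      obtain ⟨S, hS, hSc, hSt⟩ := exists_top w X (r + 1) hXr
      have hSd : r + N ≤ sg w S := by
        by_cases hall : ∀ i ∈ S, 2 ≤ w i
        · have := two_mul_card_le w S hall
          rw [hSc] at this
          omega
        · push Not at hall
          obtain ⟨i, hi, hi1⟩ := hall
          have h1 : sg w (X \ S) ≤ (X \ S).card • 1 :=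
            Finset.sum_le_card_nsmul _ w 1 (fun x hx => by
              have := hSt i hi x hx
              omega)
          rw [smul_eq_mul, mul_one, Finset.card_sdiff_of_subset hS, hSc] at h1
          have h2 := sg_sdiff w hS
          omega
      obtain ⟨R, hR, y, hy, hyR, hRc, hR1, hR2⟩ := slide w X r (r + N) ⟨S, hS, hSc, hSd⟩ hnh
      exact ⟨R, y, hR, hy, hRc, hyR, hR1, hR2⟩
    · push Not at hnh
      have hXh := heavy w X r (r + N + 1) (by omega) (fun R h1 h2 => hnh R h1 h2)
      by_cases hYr : Y.card ≤ r
      · -- (d)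
        exfalso
        have h1 : r * sg w X + r * (Y.card * 2) ≤ r * (t * (r + N)) := by
          rw [← mul_add]; exact Nat.mul_le_mul_left _ (by omega)
        have h5 : X.card * (r + N + 1) + Y.card * (r + N + 1) = (t * r + 1) * (r + N + 1) := by
          rw [← add_mul]; congr 1
        -- |Y| (N + 1 - r) >= t r + r + N + 1
        have h6 : t * r + (r + N + 1) + Y.card * (2 * r) ≤ Y.card * (r + N + 1) := by nlinarith
        have h7 : r ≤ t * r := by nlinarith
        have h8 : Y.card * (r + N + 1) ≤ Y.card * (2 * r) + Y.card * 3 := by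
          rw [← mul_add]; exact Nat.mul_le_mul_left _ (by omega)
        -- cases on N
        rcases Nat.lt_or_ge (r + N) (2 * r + 2) with h9 | h9
        · have h10 : Y.card * (r + N + 1) ≤ Y.card * (2 * r) + Y.card * 2 := by
            rw [← mul_add]; exact Nat.mul_le_mul_left _ (by omega)
          by_cases h11 : r + N + 1 ≤ 2 * r + 1
          · have h12 : Y.card * (r + N + 1) ≤ Y.card * (2 * r) + Y.card * 1 := by
              rw [← mul_add]; exact Nat.mul_le_mul_left _ (by omega)
            omega
          · omega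
        · omega
      · -- (c)
        right
        push Not at hYr
        apply nodeY (by omega)
        by_contra hcon
        push Not at hcon
        have h1 := heavy w Y r (r + N + 1) (by omega) (fun R h1 h2 => hcon R h1 h2)
        have h2 : r * sg w X + r * sg w Y = r * (t * (r + N)) := by rw [← mul_add, hs]
        have h5 : X.card * (r + N + 1) + Y.card * (r + N + 1) = (t * r + 1) * (r + N + 1) := by
          rw [← add_mul, hc]
        nlinarith

end Pool.Agent.Helper31.PQ.ROW
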